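import Pool.Agent.Helper28.LV.StL

/-!
# Project LV, module AV: averaging over the projective line modulo `p`
-/

set_option autoImplicit false

open Pool.Agent.Helper14.CV Pool.Agent.Helper28.WK Pool.Agent.Helper28.LV

namespace Pool.Agent.Helper1.LV

section aux

variable {R : Type} [AddCommGroup R] {p : ℕ} [Fact p.Prime]

private theorem neZ : NeZero p := ⟨(Fact.out : p.Prime).ne_zero⟩

private theorem sum_zmod (f : ℤ → R) :
    ∑ i ∈ Finset.range p, f (i : ℤ) = ∑ x : ZMod p, f (x.val : ℤ) := by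
  haveI : NeZero p := neZ
  refine Finset.sum_nbij' (fun i : ℕ => (i : ZMod p)) (fun x : ZMod p => x.val)
    (fun i _ => Finset.mem_univ _) (fun x _ => Finset.mem_range.mpr (ZMod.val_lt x)) ?_ ?_ ?_
  · intro i hi
    exact ZMod.val_cast_of_lt (Finset.mem_range.mp hi)
  · intro x _
    exact ZMod.natCast_zmod_val x
  · intro i hi
    rw [ZMod.val_cast_of_lt (Finset.mem_range.mp hi)]

private theorem per_val {f : ℤ → R} (hf : ∀ i k : ℤ, f (i + p * k) = f i) (i : ℤ) :
    f i = f (((i : ZMod p)).val : ℤ) := by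
  haveI : NeZero p := neZ
  rw [ZMod.val_intCast]
  conv_lhs => rw [← Int.emod_add_mul_ediv i (p : ℤ)]
  rw [hf]

private theorem sum_shift {f : ℤ → R} (hf : ∀ i k : ℤ, f (i + p * k) = f i) (c : ℤ) :
    ∑ i ∈ Finset.range p, f ((i : ℤ) + c) = ∑ i ∈ Finset.range p, f (i : ℤ) := by
  haveI : NeZero p := neZ
  rw [sum_zmod (fun i => f (i + c)), sum_zmod f]
  refine Fintype.sum_equiv (Equiv.addRight (c : ZMod p)) _ _ fun x => ?_
  rw [per_val hf]
  congr 2
  simp

private theorem sum_neg {f : ℤ → R} (hf : ∀ i k : ℤ, f (i + p * k) = f i) :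
    ∑ i ∈ Finset.range p, f (-(i : ℤ)) = ∑ i ∈ Finset.range p, f (i : ℤ) := by
  haveI : NeZero p := neZ
  rw [sum_zmod (fun i => f (-i)), sum_zmod f]
  refine Fintype.sum_equiv (Equiv.neg (ZMod p)) _ _ fun x => ?_
  rw [per_val hf]
  congr 2
  simp

private theorem sum_inv {f g : ℤ → R} (hfg : ∀ i j : ℤ, (p : ℤ) ∣ 1 + i * j → f i = g j) :
    ∑ i ∈ Finset.range p, f (i : ℤ) + g 0 = ∑ i ∈ Finset.range p, g (i : ℤ) + f 0 := by
  haveI : NeZero p := neZ
  classical
  have e : ∀ h : ℤ → R, ∑ i ∈ Finset.range p, h (i : ℤ) =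
      h 0 + ∑ x ∈ (Finset.univ : Finset (ZMod p)).erase 0, h (x.val : ℤ) := by
    intro h
    rw [sum_zmod h, ← Finset.add_sum_erase _ _ (Finset.mem_univ (0 : ZMod p)), ZMod.val_zero,
      Nat.cast_zero]
  have h2 : ∑ x ∈ (Finset.univ : Finset (ZMod p)).erase 0, f (x.val : ℤ) =
      ∑ x ∈ (Finset.univ : Finset (ZMod p)).erase 0, g (x.val : ℤ) := by
    refine Finset.sum_nbij' (fun x => -x⁻¹) (fun x => -x⁻¹) ?_ ?_ ?_ ?_ ?_
    · intro x hx
      rw [Finset.mem_erase] at hx ⊢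
      exact ⟨neg_ne_zero.mpr (inv_ne_zero hx.1), Finset.mem_univ _⟩
    · intro x hx
      rw [Finset.mem_erase] at hx ⊢
      exact ⟨neg_ne_zero.mpr (inv_ne_zero hx.1), Finset.mem_univ _⟩
    · intro x _
      rw [inv_neg, neg_neg, inv_inv]
    · intro x _
      rw [inv_neg, neg_neg, inv_inv]
    · intro x hx
      rw [Finset.mem_erase] at hx
      refine hfg _ _ ?_
      rw [← ZMod.intCast_zmod_eq_zero_iff_dvd]
      push_cast
      rw [ZMod.natCast_zmod_val, ZMod.natCast_zmod_val, mul_neg, mul_inv_cancel₀ hx.1]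
      ring
  rw [e f, e g, h2]
  abel

end aux

theorem hAV : StAV := by
  intro p hp m m' H1 H2 H3 H4
  have hpp : p.Prime := hp.out
  -- periodicity
  have per : ∀ α β γ δ : ℤ, α * δ - β * γ = 1 → ∀ i k : ℤ,
      m (α + (i + p * k) * γ) (β + (i + p * k) * δ) γ δ = m (α + i * γ) (β + i * δ) γ δ := by
    intro α β γ δ hd i k
    have h := H1 1 (p * k) 0 1 (α + i * γ) (β + i * δ) γ δ (by ring)
      (by linear_combination hd) (Dvd.intro _ rfl)
    rw [← h]
    congr 1 <;> ring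
  have neg1 : ∀ α β γ δ : ℤ, α * δ - β * γ = 1 → m (-α) (-β) (-γ) (-δ) = m α β γ δ := by
    intro α β γ δ hd
    have h := H1 (-1) 0 0 (-1) α β γ δ (by ring) hd (dvd_zero _)
    rw [← h]
    congr 1 <;> ring
  -- lower triangular matrices
  have low : ∀ α β γ δ c : ℤ, α * δ - β * γ = 1 →
      m α β (c * α + γ) (c * β + δ) = m α β γ δ := by
    intro α β γ δ c hd
    have h := H1 1 0 c 1 α β γ δ (by ring) hd (dvd_zero _)
    rw [← h]
    congr 1 <;> ring
  set s : ℤ → ℤ → ℤ → ℤ → ℚ_[p] := fun α β γ δ =>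
    m γ δ (-α) (-β) + ∑ i ∈ Finset.range p, m (α + i * γ) (β + i * δ) γ δ with hs
  -- (1)
  have s1 : ∀ α β γ δ c : ℤ, α * δ - β * γ = 1 → s (α + c * γ) (β + c * δ) γ δ = s α β γ δ := by
    intro α β γ δ c hd
    have e1 : m γ δ (-(α + c * γ)) (-(β + c * δ)) = m γ δ (-α) (-β) := by
      have h := low γ δ (-α) (-β) (-c) (by linear_combination hd)
      rw [← h]
      congr 1 <;> ring
    have e2 := sum_shift (p := p) (f := fun i => m (α + i * γ) (β + i * δ) γ δ)
      (per α β γ δ hd) c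
    simp only [hs]
    rw [e1]
    congr 1
    rw [← e2]
    refine Finset.sum_congr rfl fun i _ => ?_
    congr 1 <;> ring
  -- (2)
  have s2 : ∀ α β γ δ : ℤ, α * δ - β * γ = 1 → s γ δ (-α) (-β) = s α β γ δ := by
    intro α β γ δ hd
    have e := sum_inv (p := p) (f := fun i => m (γ + i * (-α)) (δ + i * (-β)) (-α) (-β))
      (g := fun i => m (α + i * γ) (β + i * δ) γ δ) (by
        intro i j hij
        have h := H1 (-i) (1 + i * j) (-1) j (α + j * γ) (β + j * δ) γ δ (by ring)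
          (by linear_combination hd) hij
        show m (γ + i * (-α)) (δ + i * (-β)) (-α) (-β) = m (α + j * γ) (β + j * δ) γ δ
        rw [← h]
        congr 1 <;> ring)
    have e0 := neg1 α β γ δ hd
    simp only [hs]
    rw [e0]
    have e1 : m (α + 0 * γ) (β + 0 * δ) γ δ = m α β γ δ := by congr 1 <;> ring
    have e2 : m (γ + 0 * (-α)) (δ + 0 * (-β)) (-α) (-β) = m γ δ (-α) (-β) := by
      congr 1 <;> ring
    simp only [e1, e2] at e
    linear_combination e
  -- (3)
  have s3 : ∀ α β γ δ c : ℤ, α * δ - β * γ = 1 → s α β (c * α + γ) (c * β + δ) = s α β γ δ := by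
    intro α β γ δ c hd
    rw [← s2 α β (c * α + γ) (c * β + δ) (by linear_combination hd)]
    have h := s1 γ δ (-α) (-β) (-c) (by linear_combination hd)
    rw [← s2 α β γ δ hd, ← h]
    congr 1 <;> ring
  -- (4)
  have h4 : ∀ α β γ δ : ℤ, α * δ - β * γ = 1 →
      (p : ℚ_[p]) * m' α β γ δ = s α β γ δ - m γ δ (-α) (-β) := by
    intro α β γ δ hd
    rw [H3 α β γ δ hd]
    simp only [hs]
    ring
  have h5 : ∀ α β γ δ : ℤ, α * δ - β * γ = 1 →
      ((p : ℚ_[p]) + 1) * m α β γ δ = s α β γ δ := by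
    intro α β γ δ hd
    have e1 : (p : ℚ_[p]) * ((p : ℚ_[p]) * m α β γ δ) =
        ∑ i ∈ Finset.range p, (s α β γ δ - m (i * α + γ) (i * β + δ) (-α) (-β)) := by
      rw [H4 α β γ δ hd, Finset.mul_sum]
      refine Finset.sum_congr rfl fun i _ => ?_
      rw [h4 α β (i * α + γ) (i * β + δ) (by linear_combination hd), s3 α β γ δ i hd]
    have e2 : ∑ i ∈ Finset.range p, m (i * α + γ) (i * β + δ) (-α) (-β) =
        s α β γ δ - m α β γ δ := by
      have n1 := sum_neg (p := p) (f := fun i => m (γ + i * (-α)) (δ + i * (-β)) (-α) (-β))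
        (per γ δ (-α) (-β) (by linear_combination hd))
      have n2 : s γ δ (-α) (-β) = s α β γ δ := s2 α β γ δ hd
      have n3 := neg1 α β γ δ hd
      simp only [hs] at n2 ⊢
      rw [n3] at n2
      rw [← n2, ← n1]
      rw [add_sub_cancel_left]
      refine Finset.sum_congr rfl fun i _ => ?_
      congr 1 <;> ring
    rw [Finset.sum_sub_distrib, e2, Finset.sum_const, Finset.card_range, nsmul_eq_mul] at e1
    have hne : (p : ℚ_[p]) - 1 ≠ 0 := by
      rw [sub_ne_zero]
      exact_mod_cast hpp.one_lt.ne'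
    apply mul_left_cancel₀ hne
    linear_combination e1
  intro α β γ δ hd
  have hp1 : (p : ℚ_[p]) + 1 ≠ 0 := by exact_mod_cast Nat.succ_ne_zero p
  have hp0 : (p : ℚ_[p]) ≠ 0 := by exact_mod_cast hpp.ne_zero
  apply mul_left_cancel₀ hp0
  rw [H3 α β γ δ hd]
  have e : ∀ i ∈ Finset.range p, m (α + i * γ) (β + i * δ) γ δ = m α β γ δ := by
    intro i _
    apply mul_left_cancel₀ hp1
    rw [h5 _ _ _ _ (by linear_combination hd), h5 _ _ _ _ hd, s1 α β γ δ i hd]
  rw [Finset.sum_congr rfl e, Finset.sum_const, Finset.card_range, nsmul_eq_mul]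

end Pool.Agent.Helper1.LV
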